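import Pool.Agent.H61.KW.TA

/-!
# Kuiper board KW: rows GNX, XOU, XSP
-/

set_option autoImplicit false
set_option linter.unusedSectionVars false

open Set Pool.Agent.H61.KV Pool.Agent.H61.KW

namespace Pool.Agent.H94.KW.GNX

/-- sums of elements of `S` -/
def SumOf {V : Type} [AddCommGroup V] (S : Set V) (q : V) : Prop :=
  ∃ (n : ℕ) (x : Fin n → V), (∀ i, x i ∈ S) ∧ q = ∑ i, x i

section
variable {V : Type} [AddCommGroup V] [Module ℝ V] {S T : Set V}

theorem SumOf.zero : SumOf S (0 : V) := ⟨0, fun i => i.elim0, fun i => i.elim0, by simp⟩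

theorem SumOf.of_mem {q : V} (h : q ∈ S) : SumOf S q := ⟨1, fun _ => q, fun _ => h, by simp⟩

theorem SumOf.mono (h : S ⊆ T) {q : V} (hq : SumOf S q) : SumOf T q := by
  obtain ⟨n, x, h1, h2⟩ := hq
  exact ⟨n, x, fun i => h (h1 i), h2⟩

theorem SumOf.add {p q : V} (hp : SumOf S p) (hq : SumOf S q) : SumOf S (p + q) := by
  obtain ⟨n, x, h1, h2⟩ := hp
  obtain ⟨m, y, h3, h4⟩ := hq
  refine ⟨n + m, Fin.append x y, fun i => ?_, ?_⟩
  · induction i using Fin.addCases with
    | left i => rw [Fin.append_left]; exact h1 i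
    | right i => rw [Fin.append_right]; exact h3 i
  · rw [Fin.sum_univ_add]
    simp only [Fin.append_left, Fin.append_right]
    rw [h2, h4]

theorem SumOf.smul {q : V} {c : ℝ} (h : ∀ x ∈ S, c • x ∈ S) (hq : SumOf S q) :
    SumOf S (c • q) := by
  obtain ⟨n, x, h1, h2⟩ := hq
  exact ⟨n, fun i => c • x i, fun i => h _ (h1 i), by rw [h2, Finset.smul_sum]⟩

end

theorem main {V : Type} [NormedAddCommGroup V] [NormedSpace ℝ V] [FiniteDimensional ℝ V]
    {C : Set V} (hC : IsCC C) : ∀ (n : ℕ) (q : V), q ∈ C → rk C q ≤ n →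
      SumOf {x | Ex C x ∧ x ∈ Fc C q} q := by
  intro n
  induction n with
  | zero =>
    intro q hq h
    rw [eq_zero_of_rk hC hq (by omega)]
    exact SumOf.zero
  | succ n ih =>
    intro q hq h
    by_cases h0 : q = 0
    · subst h0
      exact SumOf.zero
    by_cases h1 : rk C q ≤ 1
    · exact SumOf.of_mem ⟨ex_of_rk hC hq h0 h1, self hC hq⟩
    push Not at h1
    obtain ⟨e, he⟩ := hC.pos
    have heq := he q hq h0
    -- a vector of the span which is not a multiple of `q`
    obtain ⟨w, hw, hw'⟩ : ∃ w ∈ Sp C q, w ∉ Submodule.span ℝ {q} := by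
      by_contra hcon
      push Not at hcon
      have h2 : Sp C q ≤ Submodule.span ℝ {q} := fun v hv => hcon v hv
      have h3 := Submodule.finrank_mono h2
      rw [finrank_span_singleton h0] at h3
      unfold rk at h1
      omega
    set v : V := w - (e w / e q) • q with hv
    have hvS : v ∈ Sp C q :=
      Submodule.sub_mem _ hw (Submodule.smul_mem _ _ (self_sp hC hq))
    have hv0 : v ≠ 0 := by
      intro h2
      apply hw'
      rw [sub_eq_zero.1 h2]
      exact Submodule.smul_mem _ _ (Submodule.mem_span_singleton_self q)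
    have hev : e v = 0 := by
      rw [hv, map_sub, map_smul, smul_eq_mul, div_mul_cancel₀ _ heq.ne', sub_self]
    have hvC : v ∉ C := by
      intro h2
      have := he v h2 hv0
      linarith
    have hnC : -v ∉ C := by
      intro h2
      have := he (-v) h2 (neg_ne_zero.2 hv0)
      rw [map_neg] at this
      linarith
    obtain ⟨s, hs, h2, h3⟩ := leave hC hq hvS hvC
    obtain ⟨s', hs', h4, h5⟩ := leave hC hq (Submodule.neg_mem _ hvS) hnC
    have step : ∀ q' : V, q' ∈ Fc C q → q ∉ Fc C q' → ∀ c : ℝ, 0 < c →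
        SumOf {x | Ex C x ∧ x ∈ Fc C q} (c • q') := by
      intro q' hq' hn c hc
      have h6 := ih q' (mem_C hq') (by have := rk_lt hC hq hq' hn; omega)
      refine SumOf.mono ?_ (SumOf.smul (S := {x | Ex C x ∧ x ∈ Fc C q'}) (c := c) ?_ h6)
      · rintro x ⟨hx, hx'⟩
        exact ⟨hx, tra hC hq hq' hx'⟩
      · rintro x ⟨hx, hx'⟩
        exact ⟨ex_smul hC hx hc, smul_fc hC (mem_C hq') hc.le hx'⟩
    have h6 : q = (s' / (s + s')) • (q + s • v) + (s / (s + s')) • (q + s' • -v) := by
      have hss : s + s' ≠ 0 := by positivity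
      have e1 : (s' / (s + s')) • (q + s • v) + (s / (s + s')) • (q + s' • -v) =
          (s' / (s + s') + s / (s + s')) • q + (s' / (s + s') * s - s / (s + s') * s') • v := by
        module
      rw [e1]
      have e2 : s' / (s + s') + s / (s + s') = 1 := by field_simp; ring
      have e3 : s' / (s + s') * s - s / (s + s') * s' = 0 := by field_simp; ring
      rw [e2, e3, one_smul, zero_smul, add_zero]
    have h7 := (step _ h2 h3 (s' / (s + s')) (by positivity)).add
      (step _ h4 h5 (s / (s + s')) (by positivity))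
    rw [← h6] at h7
    exact h7

theorem pf_GNX : T_GNX := by
  intro V _ _ _ C q hC hq
  exact main hC (rk C q) q hq le_rfl

theorem pf_XOU (h : T_GNX) : T_XOU := by
  intro V _ _ _ C D q hC hq h0 hadd hqD
  obtain ⟨n, x, h1, h2⟩ := h V C q hC hq
  by_contra hcon
  push Not at hcon
  apply hqD
  rw [h2]
  refine Finset.sum_induction x (fun a => a ∈ D)
    (fun a b ha hb => hadd a ha b hb) h0 ?_
  intro i _
  exact hcon (x i) (h1 i).1 (h1 i).2

theorem pf_XSP (h : T_XOU) : T_XSP := by
  intro V _ _ _ C q W hC hq hW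
  obtain ⟨r, hr, hrW⟩ : ∃ r ∈ Fc C q, r ∉ W := by
    by_contra hcon
    push Not at hcon
    have h1 : Sp C q ≤ W := Submodule.span_le.2 fun v hv => hcon v hv
    have h2 := Submodule.finrank_mono h1
    unfold rk at hW
    omega
  obtain ⟨x, h1, h2, h3⟩ := h V C (W : Set V) r hC (mem_C hr) W.zero_mem
    (fun a ha b hb => W.add_mem ha hb) hrW
  exact ⟨x, h1, tra hC hq hr h2, h3⟩

end Pool.Agent.H94.KW.GNX
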